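import Mathlib

open Set Filter Topology MeasureTheory Real

namespace Pool.Agent.Results.MP_d23f22_an.ThresholdFails

/-- The lift to the plane of the cylinder map `F_{V,lam}`:
`r' = r + lam * V θ`, `θ' = θ + r'`. -/
noncomputable def lift (V : ℝ → ℝ) (lam : ℝ) (p : ℝ × ℝ) : ℝ × ℝ :=
  (p.1 + (p.2 + lam * V p.1), p.2 + lam * V p.1)

/-- The graph `r = R θ`. -/
def graph (R : ℝ → ℝ) : Set (ℝ × ℝ) := {p | p.2 = R p.1}

/-- `V` is real-analytic on the circle `ℝ/ℤ` with mean zero. -/
def Admissible (V : ℝ → ℝ) : Prop :=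
  (∀ x, AnalyticAt ℝ V x) ∧ (∀ x, V (x + 1) = V x) ∧ ∫ x in (0:ℝ)..1, V x = 0

/-- `rho` is Diophantine. -/
def Diophantine (rho : ℝ) : Prop :=
  ∃ C : ℝ, 0 < C ∧ ∃ d : ℝ, 2 < d ∧ ∀ m n : ℕ, 0 < m → 0 < n →
    C / (n : ℝ) ^ d < |rho - (m : ℝ) / (n : ℝ)|

/-- The two-sided orbit `p` has rotation number `rho`. -/
def HasRotationNumber (p : ℤ → ℝ × ℝ) (rho : ℝ) : Prop :=
  Tendsto (fun n : ℕ => ((p (n : ℤ)).1 - (p 0).1) / (n : ℝ)) atTop (𝓝 rho) ∧
  Tendsto (fun n : ℕ => ((p (-(n : ℤ))).1 - (p 0).1) / (-(n : ℝ))) atTop (𝓝 rho)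

/-- The graph of `R` is an analytic invariant circle of `F_{V,lam}`. -/
def IsAnalyticCircle (V : ℝ → ℝ) (lam : ℝ) (R : ℝ → ℝ) : Prop :=
  (∀ x, AnalyticAt ℝ R x) ∧ (∀ x, R (x + 1) = R x) ∧ lift V lam '' graph R = graph R

/-- `F_{V,lam}` has an analytic invariant circle of rotation number `rho`. -/
def HasAnalyticCircle (V : ℝ → ℝ) (lam rho : ℝ) : Prop :=
  ∃ R : ℝ → ℝ, IsAnalyticCircle V lam R ∧
    ∀ p : ℤ → ℝ × ℝ, p 0 ∈ graph R → (∀ n, p (n + 1) = lift V lam (p n)) →
      HasRotationNumber p rho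

/-! ### Non-existence at `lam = 3/4` -/

lemma lift_injective (V : ℝ → ℝ) (lam : ℝ) : Function.Injective (lift V lam) := by
  rintro ⟨a, b⟩ ⟨c, d⟩ h
  simp only [lift, Prod.mk.injEq] at h
  obtain ⟨h1, h2⟩ := h
  have h3 : a = c := by linarith
  subst h3
  have h4 : b = d := by linarith
  rw [h4]

/-- A gap lemma: if `g` is continuous and strictly increasing and `g` maps
`[-5/12, 5/12]` off the integer translates of `[-5/12,5/12]` then it moves it into a gap. -/
lemma gap (g : ℝ → ℝ) (hg : Continuous g)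
    (hB : ∀ x, |x| ≤ 5 / 12 → ∀ m : ℤ, 5 / 12 < |g x - m|) :
    g (5 / 12) - g (-(5 / 12)) ≤ 1 / 6 := by
  by_contra hcon
  push Not at hcon
  set u := g (-(5 / 12)) with hu
  set w := g (5 / 12) with hw
  -- every value in [u, w] is attained in B
  have hivt : ∀ y, u ≤ y → y ≤ w → ∀ m : ℤ, 5 / 12 < |y - m| := by
    intro y hy1 hy2 m
    have := intermediate_value_Icc (show (-(5 / 12) : ℝ) ≤ 5 / 12 by norm_num)
      (hg.continuousOn (s := Icc (-(5 / 12)) (5 / 12)))
    obtain ⟨x, hx, hxy⟩ := this ⟨hy1, hy2⟩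
    rw [← hxy]
    exact hB x (abs_le.2 ⟨hx.1, hx.2⟩) m
  have h1 := hivt u le_rfl (by linarith) (round u)
  have h2 : |u - round u| ≤ 1 / 2 := abs_sub_round u
  rcases lt_abs.1 h1 with h3 | h3
  · have h4 := (abs_le.1 h2).2
    have h5 := hivt (round u + 7 / 12) (by linarith) (by linarith) (round u + 1)
    have h6 : |((round u : ℝ) + 7 / 12 - ((round u + 1 : ℤ) : ℝ))| = 5 / 12 := by
      push_cast
      rw [abs_eq (by norm_num)]
      right
      ring
    linarith
  · have h4 := (abs_le.1 h2).1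
    have h5 := hivt (round u - 5 / 12) (by linarith) (by linarith) (round u)
    have h6 : |((round u : ℝ) - 5 / 12 - ((round u : ℤ) : ℝ))| = 5 / 12 := by
      rw [abs_eq (by norm_num)]
      right
      ring
    linarith

lemma shift_int {g : ℝ → ℝ} (h : ∀ x, g (x + 1) = g x + 1) (x : ℝ) (m : ℤ) :
    g (x + m) = g x + m := by
  induction m using Int.induction_on with
  | zero => simp
  | succ n ih =>
    have := h (x + n)
    push_cast
    push_cast at ih
    rw [← add_assoc, this, ih]
    ring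
  | pred n ih =>
    have := h (x + (-n - 1))
    push_cast
    push_cast at ih
    rw [show x + (-(n:ℝ) - 1) + 1 = x + -(n:ℝ) by ring, ih] at this
    linarith

lemma no_circle {V : ℝ → ℝ} (hV : Differentiable ℝ V)
    (hmono : 0 ≤ 5 / 3 + (V (5 / 12) - V (-(5 / 12))))
    (hder : ∀ x, |x| ≤ 5 / 12 → 2 + 3 / 4 * deriv V x ≤ 1) (hVp : ∀ x, V (x + 1) = V x)
    (R : ℝ → ℝ) : ¬ IsAnalyticCircle V (3 / 4) R := by
  rintro ⟨hRa, hRp, hinv⟩
  have hRd : Differentiable ℝ R := fun x => (hRa x).differentiableAt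
  set g : ℝ → ℝ := fun x => x + (R x + 3 / 4 * V x) with hg
  set k : ℝ → ℝ := fun x => x - R x with hk
  have hgd : Differentiable ℝ g := by
    intro x
    exact differentiableAt_id.add ((hRd x).add ((hV x).const_mul _))
  have hkd : Differentiable ℝ k := fun x => differentiableAt_id.sub (hRd x)
  have hR1 : ∀ x, R (g x) = R x + 3 / 4 * V x := by
    intro x
    have : lift V (3 / 4) (x, R x) ∈ graph R := by
      rw [← hinv]
      exact ⟨(x, R x), rfl, rfl⟩
    simpa [graph, lift, hg] using this.symm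
  have hkg : ∀ x, k (g x) = x := by
    intro x
    simp only [hk]
    rw [hR1 x]
    simp only [hg]
    ring
  have hsurj : Function.Surjective g := by
    intro y
    have : (y, R y) ∈ lift V (3 / 4) '' graph R := by
      rw [hinv]
      rfl
    obtain ⟨⟨a, b⟩, hab, he⟩ := this
    refine ⟨a, ?_⟩
    simp only [graph, mem_ofPred_eq] at hab
    simp only [lift, Prod.mk.injEq] at he
    simp only [hg]
    rw [← hab]
    exact he.1
  have hgk : ∀ y, g (k y) = y := by
    intro y
    obtain ⟨x, rfl⟩ := hsurj y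
    rw [hkg]
  have hgp : ∀ x, g (x + 1) = g x + 1 := by
    intro x
    simp only [hg]
    rw [hRp, hVp]
    ring
  have hkp : ∀ x, k (x + 1) = k x + 1 := by
    intro x
    simp only [hk]
    rw [hRp]
    ring
  have hginj : Function.Injective g := fun x y h => by rw [← hkg x, ← hkg y, h]
  have hgmono : StrictMono g := by
    rcases hgd.continuous.strictMono_of_inj hginj with h | h
    · exact h
    · exfalso
      have h1 := h (show (0:ℝ) < 0 + 1 by norm_num)
      rw [hgp] at h1
      linarith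
  have hchain : ∀ x, deriv k (g x) * deriv g x = 1 := by
    intro x
    have h1 : HasDerivAt (fun y => k (g y)) (deriv k (g x) * deriv g x) x :=
      (hkd (g x)).hasDerivAt.comp x (hgd x).hasDerivAt
    have h2 : HasDerivAt (fun y => k (g y)) 1 x := by
      have : (fun y => k (g y)) = fun y => y := funext hkg
      rw [this]
      exact hasDerivAt_id x
    exact h1.unique h2
  have hg0 : ∀ x, 0 < deriv g x := by
    intro x
    have h1 : 0 ≤ deriv g x := hgmono.monotone.deriv_nonneg
    rcases h1.lt_or_eq with h | h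
    · exact h
    · exfalso
      have := hchain x
      rw [← h] at this
      simp at this
  have hk0 : ∀ y, 0 < deriv k y := by
    intro y
    obtain ⟨x, rfl⟩ := hsurj y
    have h1 := hchain x
    have h2 := hg0 x
    by_contra hcon
    push Not at hcon
    nlinarith
  have hsum : ∀ x, deriv g x + deriv k x = 2 + 3 / 4 * deriv V x := by
    intro x
    have h1 : deriv g x = 1 + (deriv R x + 3 / 4 * deriv V x) := by
      have : HasDerivAt g (1 + (deriv R x + 3 / 4 * deriv V x)) x :=
        (hasDerivAt_id x).add ((hRd x).hasDerivAt.add ((hV x).hasDerivAt.const_mul _))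
      exact this.deriv
    have h2 : deriv k x = 1 - deriv R x := by
      have : HasDerivAt k (1 - deriv R x) x := (hasDerivAt_id x).sub (hRd x).hasDerivAt
      exact this.deriv
    rw [h1, h2]
    ring
  have hgper : ∀ (x : ℝ) (m : ℤ), deriv g (x + m) = deriv g x := by
    intro x m
    have h1 : HasDerivAt (fun y => g (y + m)) (deriv g (x + m)) x := by
      have := (hgd (x + m)).hasDerivAt
      exact this.comp_add_const x (m : ℝ)
    have h2 : HasDerivAt (fun y => g (y + m)) (deriv g x) x := by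
      have : (fun y => g (y + m)) = fun y => g y + m := by
        funext y
        exact shift_int hgp y m
      rw [this]
      exact (hgd x).hasDerivAt.add_const _
    exact h1.unique h2
  have hkper : ∀ (x : ℝ) (m : ℤ), deriv k (x + m) = deriv k x := by
    intro x m
    have h1 : HasDerivAt (fun y => k (y + m)) (deriv k (x + m)) x := by
      have := (hkd (x + m)).hasDerivAt
      exact this.comp_add_const x (m : ℝ)
    have h2 : HasDerivAt (fun y => k (y + m)) (deriv k x) x := by
      have : (fun y => k (y + m)) = fun y => k y + m := by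
        funext y
        exact shift_int hkp y m
      rw [this]
      exact (hkd x).hasDerivAt.add_const _
    exact h1.unique h2
  have hgB : ∀ x, |x| ≤ 5 / 12 → ∀ m : ℤ, 5 / 12 < |g x - m| := by
    intro x hx m
    by_contra hcon
    push Not at hcon
    have h1 := hsum x
    have h2 := hder x hx
    have h3 := hsum (g x - m)
    have h4 := hder (g x - m) hcon
    have h5 := hkper (g x - m) m
    rw [sub_add_cancel] at h5
    have h6 := hchain x
    have h7 := hg0 x
    have h8 := hk0 x
    have h9 := hg0 (g x - m)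
    have h10 := hk0 (g x - m)
    rw [h5] at h6
    nlinarith
  have hkB : ∀ x, |x| ≤ 5 / 12 → ∀ m : ℤ, 5 / 12 < |k x - m| := by
    intro x hx m
    by_contra hcon
    push Not at hcon
    have h1 := hsum x
    have h2 := hder x hx
    have h3 := hsum (k x - m)
    have h4 := hder (k x - m) hcon
    have h5 := hgper (k x - m) m
    rw [sub_add_cancel] at h5
    have h6 := hchain (k x)
    rw [hgk] at h6
    have h7 := hg0 x
    have h8 := hk0 x
    have h9 := hg0 (k x - m)
    have h10 := hk0 (k x - m)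
    rw [h5] at h6
    nlinarith
  have e1 := gap g hgd.continuous hgB
  have e2 := gap k hkd.continuous hkB
  simp only [hg, hk] at e1 e2
  linarith

/-! ### The conjugacy `h` -/

/-- The lift of a Moebius map of the circle. -/
noncomputable def h (x : ℝ) : ℝ :=
  x + (1 / π) * arctan ((9 / 10 * sin (2 * π * x)) / (1 - 9 / 10 * cos (2 * π * x)))

/-- The Poisson kernel, derivative of `h`. -/
noncomputable def P (x : ℝ) : ℝ := 19 / (181 - 180 * cos (2 * π * x))

lemma den_pos (x : ℝ) : 0 < 1 - 9 / 10 * cos (2 * π * x) := by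
  have := cos_le_one (2 * π * x)
  linarith

lemma den2_pos (x : ℝ) : 0 < 181 - 180 * cos (2 * π * x) := by
  have := cos_le_one (2 * π * x)
  linarith

lemma P_pos (x : ℝ) : 0 < P x := div_pos (by norm_num) (den2_pos x)

lemma hasDerivAt_h (x : ℝ) : HasDerivAt h (P x) x := by
  have h1 : HasDerivAt (fun y => 2 * π * y) (2 * π) x := by
    simpa using (hasDerivAt_id x).const_mul (2 * π)
  have h2 : HasDerivAt (fun y => 9 / 10 * sin (2 * π * y))
      (9 / 10 * (cos (2 * π * x) * (2 * π))) x := (h1.sin).const_mul _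
  have h3 : HasDerivAt (fun y => 1 - 9 / 10 * cos (2 * π * y))
      (-(9 / 10 * (-sin (2 * π * x) * (2 * π)))) x := ((h1.cos).const_mul _).const_sub _
  have h4 := (h2.div h3 (den_pos x).ne').arctan
  have h5 : HasDerivAt (fun y => y + (1 / π) *
      arctan ((9 / 10 * sin (2 * π * y)) / (1 - 9 / 10 * cos (2 * π * y)))) _ x :=
    (hasDerivAt_id x).add (h4.const_mul (1 / π))
  refine h5.congr_deriv ?_
  unfold P
  have hd := den_pos x
  have hd2 := den2_pos x
  have hpi := pi_pos
  have hsc := sin_sq_add_cos_sq (2 * π * x)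
  set s := sin (2 * π * x)
  set c := cos (2 * π * x)
  have hs : s ^ 2 = 1 - c ^ 2 := by linarith
  have hD : (1 - 9 / 10 * c) ≠ 0 := hd.ne'
  have hE : (181 - 180 * c) ≠ 0 := hd2.ne'
  have e1 : 1 + (9 / 10 * s / (1 - 9 / 10 * c)) ^ 2 =
      (181 - 180 * c) / 100 / (1 - 9 / 10 * c) ^ 2 := by
    rw [div_pow, eq_div_iff (pow_ne_zero 2 hD), add_mul, div_mul_cancel₀ _ (pow_ne_zero 2 hD),
      mul_pow, hs]
    ring
  have e2 : 9 / 10 * (c * (2 * π)) * (1 - 9 / 10 * c) -
      9 / 10 * s * -(9 / 10 * (-s * (2 * π))) = 2 * π * (9 / 10 * c - 81 / 100) := by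
    have : s * s = 1 - c ^ 2 := by rw [← hs]; ring
    linear_combination (-(81 / 100) * (2 * π)) * this
  rw [Pi.div_apply]
  rw [e1, e2]
  have hpi' : π ≠ 0 := hpi.ne'
  have e3 : 1 / ((181 - 180 * c) / 100 / (1 - 9 / 10 * c) ^ 2) *
      (2 * π * (9 / 10 * c - 81 / 100) / (1 - 9 / 10 * c) ^ 2) =
      100 * (2 * π * (9 / 10 * c - 81 / 100)) / (181 - 180 * c) := by
    rw [one_div_div, div_mul_div_comm, div_eq_div_iff (by positivity) hE]
    field_simp
  rw [e3]
  rw [eq_div_iff hE]
  have e4 : (1 + 1 / π * (100 * (2 * π * (9 / 10 * c - 81 / 100)) / (181 - 180 * c))) *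
      (181 - 180 * c) = (181 - 180 * c) + (π / π) * (200 * (9 / 10 * c - 81 / 100)) *
        ((181 - 180 * c) / (181 - 180 * c)) := by
    ring
  rw [e4, div_self hpi', div_self hE]
  ring


lemma analyticAt_h (x : ℝ) : AnalyticAt ℝ h x := by
  have h1 : AnalyticAt ℝ (fun y : ℝ => 2 * π * y) x := analyticAt_const.mul analyticAt_id
  have hs : AnalyticAt ℝ (fun y : ℝ => 9 / 10 * sin (2 * π * y)) x :=
    analyticAt_const.mul (analyticAt_sin.comp h1)
  have hc : AnalyticAt ℝ (fun y : ℝ => 1 - 9 / 10 * cos (2 * π * y)) x :=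
    analyticAt_const.sub (analyticAt_const.mul (analyticAt_cos.comp h1))
  have hq : AnalyticAt ℝ (fun y : ℝ => 9 / 10 * sin (2 * π * y) / (1 - 9 / 10 * cos (2 * π * y))) x :=
    hs.div hc (den_pos x).ne'
  have ha : AnalyticAt ℝ arctan
      ((fun y : ℝ => 9 / 10 * sin (2 * π * y) / (1 - 9 / 10 * cos (2 * π * y))) x) :=
    (contDiff_arctan (n := ⊤)).contDiffAt.analyticAt
  exact analyticAt_id.add (analyticAt_const.mul (AnalyticAt.comp (g := arctan) ha hq))

lemma h_add_one (x : ℝ) : h (x + 1) = h x + 1 := by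
  unfold h
  rw [show 2 * π * (x + 1) = 2 * π * x + 2 * π by ring, sin_add_two_pi, cos_add_two_pi]
  ring

lemma h_neg (x : ℝ) : h (-x) = -h x := by
  unfold h
  rw [show 2 * π * (-x) = -(2 * π * x) by ring, sin_neg, cos_neg, mul_neg, neg_div, arctan_neg]
  ring

lemma h_zero : h 0 = 0 := by
  unfold h
  simp

lemma abs_h_sub (x : ℝ) : |h x - x| ≤ 1 / 2 := by
  unfold h
  rw [add_sub_cancel_left, abs_mul, abs_of_pos (by positivity : (0:ℝ) < 1 / π)]
  have hpi := pi_pos
  have h1 := arctan_lt_pi_div_two (9 / 10 * sin (2 * π * x) / (1 - 9 / 10 * cos (2 * π * x)))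
  have h2 := neg_pi_div_two_lt_arctan (9 / 10 * sin (2 * π * x) / (1 - 9 / 10 * cos (2 * π * x)))
  have h3 : |arctan (9 / 10 * sin (2 * π * x) / (1 - 9 / 10 * cos (2 * π * x)))| ≤ π / 2 :=
    abs_le.2 ⟨by linarith, h1.le⟩
  calc 1 / π * |arctan (9 / 10 * sin (2 * π * x) / (1 - 9 / 10 * cos (2 * π * x)))|
      ≤ 1 / π * (π / 2) := by gcongr
    _ = 1 / 2 := by field_simp

lemma h_strictMono : StrictMono h := by
  apply strictMono_of_deriv_pos
  intro x
  rw [(hasDerivAt_h x).deriv]
  exact P_pos x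

lemma h_continuous : Continuous h :=
  continuous_iff_continuousAt.2 fun x => (hasDerivAt_h x).continuousAt

lemma h_surj : Function.Surjective h := by
  apply h_continuous.surjective
  · refine tendsto_atTop_mono (f := fun x => x - 1 / 2) (fun x => ?_) ?_
    · have := (abs_le.1 (abs_h_sub x)).1
      linarith
    · exact tendsto_atTop_add_const_right _ _ tendsto_id
  · refine tendsto_atBot_mono (f := fun x => x + 1 / 2) (fun x => ?_) ?_
    · have := (abs_le.1 (abs_h_sub x)).2
      linarith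
    · exact tendsto_atBot_add_const_right _ _ tendsto_id

/-- `h` as a homeomorphism. -/
noncomputable def e : ℝ ≃ₜ ℝ := (h_strictMono.orderIsoOfSurjective h h_surj).toHomeomorph

lemma e_apply (x : ℝ) : e x = h x := rfl

/-- The inverse of `h`. -/
noncomputable def kap (x : ℝ) : ℝ := e.symm x

lemma kap_h (x : ℝ) : kap (h x) = x := by
  rw [← e_apply]
  exact e.symm_apply_apply x

lemma h_kap (x : ℝ) : h (kap x) = x := by
  rw [← e_apply]
  exact e.apply_symm_apply x

lemma analyticAt_kap (x : ℝ) : AnalyticAt ℝ kap x := by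
  have h1 : HasFDerivAt h _ (kap x) :=
    (hasDerivAt_h (kap x)).hasFDerivAt_equiv (P_pos (kap x)).ne'
  exact e.toOpenPartialHomeomorph.analyticAt_symm (a := x) (by simp) (analyticAt_h (kap x)) h1.fderiv

lemma hasDerivAt_kap (x : ℝ) : HasDerivAt kap (P (kap x))⁻¹ x := by
  refine HasDerivAt.of_local_left_inverse e.symm.continuous.continuousAt (hasDerivAt_h (kap x))
    (P_pos _).ne' ?_
  exact Filter.Eventually.of_forall fun y => h_kap y

lemma kap_add_one (x : ℝ) : kap (x + 1) = kap x + 1 := by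
  apply h_strictMono.injective
  rw [h_kap, h_add_one, h_kap]

/-- The rotation number. -/
noncomputable def rho : ℝ := √2 - 1

/-- The circle diffeomorphism. -/
noncomputable def G (x : ℝ) : ℝ := h (kap x + rho)

/-- Its inverse. -/
noncomputable def K (x : ℝ) : ℝ := h (kap x - rho)

/-- The potential derivative. -/
noncomputable def V (x : ℝ) : ℝ := G x + K x - 2 * x

lemma G_K (x : ℝ) : G (K x) = x := by
  unfold G K
  rw [kap_h, sub_add_cancel, h_kap]

lemma K_G (x : ℝ) : K (G x) = x := by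
  unfold G K
  rw [kap_h, add_sub_cancel_right, h_kap]

lemma analyticAt_G (x : ℝ) : AnalyticAt ℝ G x :=
  (analyticAt_h _).comp ((analyticAt_kap x).add analyticAt_const)

lemma analyticAt_K (x : ℝ) : AnalyticAt ℝ K x :=
  (analyticAt_h _).comp ((analyticAt_kap x).sub analyticAt_const)

lemma analyticAt_V (x : ℝ) : AnalyticAt ℝ V x :=
  ((analyticAt_G x).add (analyticAt_K x)).sub (analyticAt_const.mul analyticAt_id)

lemma G_add_one (x : ℝ) : G (x + 1) = G x + 1 := by
  unfold G
  rw [kap_add_one, show kap x + 1 + rho = (kap x + rho) + 1 by ring, h_add_one]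

lemma K_add_one (x : ℝ) : K (x + 1) = K x + 1 := by
  unfold K
  rw [kap_add_one, show kap x + 1 - rho = (kap x - rho) + 1 by ring, h_add_one]

lemma V_add_one (x : ℝ) : V (x + 1) = V x := by
  unfold V
  rw [G_add_one, K_add_one]
  ring

lemma hasDerivAt_V (x : ℝ) :
    HasDerivAt V ((P (kap x + rho) + P (kap x - rho)) * (P (kap x))⁻¹ - 2) x := by
  have h1 : HasDerivAt G (P (kap x + rho) * (P (kap x))⁻¹) x := by
    have := (hasDerivAt_h (kap x + rho)).comp x ((hasDerivAt_kap x).add_const rho)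
    exact this
  have h2 : HasDerivAt K (P (kap x - rho) * (P (kap x))⁻¹) x := by
    have := (hasDerivAt_h (kap x - rho)).comp x ((hasDerivAt_kap x).sub_const rho)
    exact this
  have h3 : HasDerivAt (fun y : ℝ => 2 * y) 2 x := by
    simpa using (hasDerivAt_id x).const_mul (2 : ℝ)
  exact ((h1.add h2).sub h3).congr_deriv (by ring)

lemma continuous_P : Continuous P := by
  unfold P
  refine continuous_const.div (by fun_prop) fun x => (den2_pos x).ne'

lemma P_add_one (x : ℝ) : P (x + 1) = P x := by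
  unfold P
  rw [show 2 * π * (x + 1) = 2 * π * x + 2 * π by ring, cos_add_two_pi]

lemma mean_zero : ∫ x in (0:ℝ)..1, V x = 0 := by
  have hVc : Continuous V := continuous_iff_continuousAt.2 fun x => (analyticAt_V x).continuousAt
  have h0 : h 1 = 1 := by
    have := h_add_one 0
    rw [h_zero] at this
    simpa using this
  have e1 : ∫ x in (0:ℝ)..1, V x = ∫ x in (0:ℝ)..1, V (h x) * P x := by
    have := intervalIntegral.integral_comp_mul_deriv (a := 0) (b := 1) (f := h) (f' := P) (g := V)
      (fun x _ => hasDerivAt_h x) continuous_P.continuousOn hVc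
    rw [h_zero, h0] at this
    exact this.symm
  rw [e1]
  set u : ℝ → ℝ := fun x => h (x + rho) - h x with hu
  have huc : Continuous u := (h_continuous.comp (by fun_prop)).sub h_continuous
  have hup : ∀ x, u (x + 1) = u x := by
    intro x
    simp only [hu]
    rw [show x + 1 + rho = (x + rho) + 1 by ring, h_add_one, h_add_one]
    ring
  set w : ℝ → ℝ := fun x => u x * P (x + rho) with hw
  have hwc : Continuous w := huc.mul (continuous_P.comp (by fun_prop))
  have hwp : Function.Periodic w 1 := by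
    intro x
    simp only [hw]
    rw [hup, show x + 1 + rho = (x + rho) + 1 by ring, P_add_one]
  have e2 : ∀ x, V (h x) * P x = u x * P x - w (x - rho) := by
    intro x
    simp only [V, G, K, kap_h, hw, hu, sub_add_cancel]
    ring
  have e3 : ∫ x in (0:ℝ)..1, w (x - rho) = ∫ x in (0:ℝ)..1, w x := by
    rw [intervalIntegral.integral_comp_sub_right]
    have := hwp.intervalIntegral_add_eq (0 - rho) 0
    rw [zero_add] at this
    rw [← this]
    congr 1
    ring
  simp_rw [e2]
  have i1 : IntervalIntegrable (fun x => u x * P x) volume 0 1 :=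
    (huc.mul continuous_P).intervalIntegrable _ _
  have i2 : IntervalIntegrable (fun x => w (x - rho)) volume 0 1 :=
    (hwc.comp (by fun_prop : Continuous fun x : ℝ => x - rho)).intervalIntegrable _ _
  have i3 : IntervalIntegrable (fun x => w x) volume 0 1 := hwc.intervalIntegrable _ _
  rw [intervalIntegral.integral_sub i1 i2, e3, ← intervalIntegral.integral_sub i1 i3]
  have hud : ∀ x, HasDerivAt u (P (x + rho) - P x) x := by
    intro x
    exact ((hasDerivAt_h (x + rho)).comp_add_const x rho).sub (hasDerivAt_h x)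
  have hF : ∀ x ∈ uIcc (0:ℝ) 1, HasDerivAt (fun y => -(u y ^ 2) / 2) (u x * P x - w x) x := by
    intro x _
    have := (((hud x).pow 2).neg).div_const 2
    refine this.congr_deriv ?_
    simp only [hw]
    push_cast
    ring
  rw [intervalIntegral.integral_eq_sub_of_hasDerivAt hF
    (((huc.mul continuous_P).sub hwc).intervalIntegrable _ _)]
  have := hup 0
  rw [zero_add] at this
  rw [this]
  ring

lemma admissible_V : Admissible V := ⟨analyticAt_V, V_add_one, mean_zero⟩

lemma diophantine_rho : Diophantine rho := by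
  refine ⟨1 / 8, by norm_num, 3, by norm_num, ?_⟩
  intro m n hm hn
  have hn' : (1:ℝ) ≤ n := by exact_mod_cast hn
  have hn0 : (0:ℝ) < n := by linarith
  have hpow : ((n:ℝ) ^ (3:ℝ)) = (n:ℝ) ^ 3 := by
    rw [← rpow_natCast]
    norm_num
  rw [hpow]
  set q : ℝ := (m : ℝ) + n with hq
  have hq0 : 0 < q := by positivity
  have e1 : rho - (m : ℝ) / n = √2 - q / n := by
    unfold rho
    rw [hq]
    field_simp
    ring
  rw [e1]
  have hs2 : √2 ^ 2 = 2 := sq_sqrt (by norm_num)
  have hs0 : 0 < √2 := by positivity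
  have hs1 : √2 < 3 / 2 := by
    rw [sqrt_lt' (by norm_num)]
    norm_num
  have hint : (1:ℝ) ≤ |2 * (n:ℝ) ^ 2 - q ^ 2| := by
    have h1 : (2 * (n:ℤ) ^ 2 - ((m:ℤ) + n) ^ 2) ≠ 0 := by
      intro h0
      have h3 : (q / n) ^ 2 = 2 := by
        have : (2 * (n:ℝ) ^ 2 - q ^ 2) = 0 := by
          rw [hq]
          exact_mod_cast h0
        rw [div_pow, div_eq_iff (by positivity)]
        linarith
      have h4 : √2 = q / n := by
        rw [← h3, sqrt_sq (by positivity)]
      apply irrational_sqrt_two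
      refine ⟨((m : ℚ) + n) / n, ?_⟩
      push_cast
      rw [h4]
    have h5 : (1:ℤ) ≤ |2 * (n:ℤ) ^ 2 - ((m:ℤ) + n) ^ 2| := Int.one_le_abs h1
    have h6 : ((1:ℤ):ℝ) ≤ ((|2 * (n:ℤ) ^ 2 - ((m:ℤ) + n) ^ 2| : ℤ) : ℝ) := by exact_mod_cast h5
    push_cast at h6
    rw [hq]
    exact h6
  have hfac : |2 * (n:ℝ) ^ 2 - q ^ 2| = |√2 - q / n| * (√2 + q / n) * n ^ 2 := by
    have h1 : 2 * (n:ℝ) ^ 2 - q ^ 2 = (√2 - q / n) * (√2 + q / n) * n ^ 2 := by
      have : (√2 - q / n) * (√2 + q / n) = 2 - (q / n) ^ 2 := by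
        linear_combination hs2
      rw [this]
      field_simp
    rw [h1, abs_mul, abs_mul, abs_of_pos (by positivity : 0 < √2 + q / n),
      abs_of_pos (by positivity : (0:ℝ) < n ^ 2)]
  rcases le_or_gt 1 |√2 - q / n| with hbig | hsmall
  · have : 1 / 8 / (n:ℝ) ^ 3 ≤ 1 / 8 := by
      rw [div_le_iff₀ (by positivity)]
      have : 1 ≤ (n:ℝ) ^ 3 := one_le_pow₀ hn'
      linarith
    linarith
  · have h1 : q / n < √2 + 1 := by
      have := (abs_lt.1 hsmall).1
      linarith
    have h2 : √2 + q / n < 4 := by linarith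
    rw [div_lt_iff₀ (by positivity)]
    have h3 : 1 ≤ |√2 - q / n| * 4 * n ^ 2 := by
      rw [hfac] at hint
      refine hint.trans ?_
      gcongr
    have h4 : (n:ℝ) ^ 2 ≤ n ^ 3 := pow_le_pow_right₀ hn' (by norm_num)
    have h5 : 0 ≤ |√2 - q / n| := abs_nonneg _
    nlinarith


lemma h_twelfth : 5 / 12 ≤ h (1 / 12) := by
  unfold h
  have h1 : 2 * π * (1 / 12) = π / 6 := by ring
  rw [h1, sin_pi_div_six, cos_pi_div_six]
  have hs3 : √3 ^ 2 = 3 := sq_sqrt (by norm_num)
  have hs0 : 0 < √3 := by positivity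
  have hs1 : √3 < 9 / 5 := by
    rw [sqrt_lt' (by norm_num)]
    norm_num
  have hs2 : 17 / 10 < √3 := by
    rw [lt_sqrt (by norm_num)]
    norm_num
  have h2 : √3 ≤ 9 / 10 * (1 / 2) / (1 - 9 / 10 * (√3 / 2)) := by
    rw [le_div_iff₀ (by nlinarith)]
    nlinarith
  have h3 : arctan √3 = π / 3 := by
    rw [← tan_pi_div_three]
    exact arctan_tan (by linarith [pi_pos]) (by linarith [pi_pos])
  have h4 : π / 3 ≤ arctan (9 / 10 * (1 / 2) / (1 - 9 / 10 * (√3 / 2))) := by
    rw [← h3]
    exact arctan_strictMono.monotone h2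
  have h5 : 1 / π * (π / 3) ≤ 1 / π * arctan (9 / 10 * (1 / 2) / (1 - 9 / 10 * (√3 / 2))) := by
    gcongr
  have h6 : 1 / π * (π / 3) = 1 / 3 := by field_simp
  linarith

lemma abs_kap_le {x : ℝ} (hx : |x| ≤ 5 / 12) : |kap x| ≤ 1 / 12 := by
  obtain ⟨h1, h2⟩ := abs_le.1 hx
  have h3 := h_twelfth
  rw [abs_le]
  constructor
  · rw [← h_strictMono.le_iff_le, h_kap, h_neg]
    linarith
  · rw [← h_strictMono.le_iff_le, h_kap]
    linarith

lemma rho_bounds : 41 / 100 < rho ∧ rho < 416 / 1000 := by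
  unfold rho
  constructor
  · have : (1.41 : ℝ) < √2 := by
      rw [lt_sqrt (by norm_num)]
      norm_num
    linarith
  · have : √2 < 1.416 := by
      rw [sqrt_lt' (by norm_num)]
      norm_num
    linarith

lemma P_far {x : ℝ} (h1 : 1 / 4 ≤ x) (h2 : x ≤ 3 / 4) : P x ≤ 19 / 181 := by
  unfold P
  have hpi := pi_pos
  have h3 : cos (2 * π * x) ≤ 0 :=
    cos_nonpos_of_pi_div_two_le_of_le (by nlinarith) (by nlinarith)
  gcongr
  linarith

lemma P_neg (x : ℝ) : P (-x) = P x := by
  unfold P
  rw [show 2 * π * (-x) = -(2 * π * x) by ring, cos_neg]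

lemma P_near {x : ℝ} (hx : |x| ≤ 1 / 12) : 19 / (262 / 10) ≤ P x := by
  unfold P
  have hpi := pi_pos
  have h1 : cos (π / 6) ≤ cos (2 * π * x) := by
    rw [← cos_abs (2 * π * x)]
    apply cos_le_cos_of_nonneg_of_le_pi (abs_nonneg _) (by linarith)
    rw [abs_mul, abs_of_pos (by positivity : 0 < 2 * π)]
    nlinarith
  rw [cos_pi_div_six] at h1
  have hs2 : 172 / 100 < √3 := by
    rw [lt_sqrt (by norm_num)]
    norm_num
  have h2 := den2_pos x
  gcongr
  linarith

lemma deriv_V_le {x : ℝ} (hx : |x| ≤ 5 / 12) : 2 + 3 / 4 * deriv V x ≤ 1 := by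
  rw [(hasDerivAt_V x).deriv]
  have h1 := abs_kap_le hx
  obtain ⟨h2, h3⟩ := abs_le.1 h1
  obtain ⟨h4, h5⟩ := rho_bounds
  have h6 : P (kap x + rho) ≤ 19 / 181 := P_far (by linarith) (by linarith)
  have h7 : P (kap x - rho) ≤ 19 / 181 := by
    rw [← P_neg]
    exact P_far (by linarith) (by linarith)
  have h8 := P_near h1
  have h9 := P_pos (kap x)
  have h10 : (P (kap x + rho) + P (kap x - rho)) * (P (kap x))⁻¹ ≤ 2 / 3 := by
    rw [← div_eq_mul_inv, div_le_iff₀ h9]
    linarith
  linarith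

lemma G_mono : Monotone G := by
  intro x y hxy
  unfold G
  apply h_strictMono.monotone
  have : kap x ≤ kap y := by
    rw [← h_strictMono.le_iff_le, h_kap, h_kap]
    exact hxy
  linarith

lemma K_mono : Monotone K := by
  intro x y hxy
  unfold K
  apply h_strictMono.monotone
  have : kap x ≤ kap y := by
    rw [← h_strictMono.le_iff_le, h_kap, h_kap]
    exact hxy
  linarith

theorem no_circle_V (R : ℝ → ℝ) : ¬ IsAnalyticCircle V (3 / 4) R := by
  apply no_circle (fun x => (analyticAt_V x).differentiableAt) _ (fun x hx => deriv_V_le hx)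
    V_add_one
  have h1 := G_mono (show (-(5 / 12) : ℝ) ≤ 5 / 12 by norm_num)
  have h2 := K_mono (show (-(5 / 12) : ℝ) ≤ 5 / 12 by norm_num)
  unfold V
  linarith

/-- The invariant graph at `lam = 1`. -/
noncomputable def R (x : ℝ) : ℝ := x - K x

lemma lift_graph (x : ℝ) : lift V 1 (x, R x) = (G x, R (G x)) := by
  unfold lift R
  simp only [K_G, V, one_mul, Prod.mk.injEq]
  constructor <;> ring

lemma isCircle : IsAnalyticCircle V 1 R := by
  refine ⟨fun x => analyticAt_id.sub (analyticAt_K x), fun x => ?_, ?_⟩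
  · unfold R
    rw [K_add_one]
    ring
  · ext ⟨a, b⟩
    constructor
    · rintro ⟨⟨c, d⟩, hcd, he⟩
      have hd : d = R c := hcd
      subst hd
      rw [lift_graph] at he
      rw [← he]
      rfl
    · intro hab
      have hb : b = R a := hab
      subst hb
      refine ⟨(K a, R (K a)), rfl, ?_⟩
      rw [lift_graph, G_K]

lemma orbit (p : ℤ → ℝ × ℝ) (h0 : p 0 ∈ graph R) (hp : ∀ n, p (n + 1) = lift V 1 (p n)) (n : ℤ) :
    p n ∈ graph R ∧ (p n).1 = h (kap (p 0).1 + n * rho) := by
  induction n using Int.induction_on with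
  | zero =>
    refine ⟨h0, ?_⟩
    push_cast
    rw [zero_mul, add_zero, h_kap]
  | succ n ih =>
    obtain ⟨ih1, ih2⟩ := ih
    have e1 : p n = ((p n).1, R (p n).1) := Prod.ext rfl ih1
    have e2 : p (n + 1) = (G (p n).1, R (G (p n).1)) := by
      rw [hp, e1, lift_graph]
    refine ⟨by rw [e2]; rfl, ?_⟩
    rw [e2]
    simp only [G]
    rw [ih2, kap_h]
    push_cast
    congr 1
    ring
  | pred n ih =>
    obtain ⟨ih1, ih2⟩ := ih
    have e0 : p (-n) = lift V 1 (p (-n - 1)) := by
      have := hp (-n - 1)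
      rwa [sub_add_cancel] at this
    have e1 : p (-n) = ((p (-n)).1, R (p (-n)).1) := Prod.ext rfl ih1
    have e2 : p (-n - 1) = (K (p (-n)).1, R (K (p (-n)).1)) := by
      apply lift_injective V 1
      rw [← e0, lift_graph, G_K]
      exact e1
    refine ⟨by rw [e2]; rfl, ?_⟩
    rw [e2]
    simp only [K]
    rw [ih2, kap_h]
    push_cast
    congr 1
    ring

lemma rot_tendsto (f : ℕ → ℝ) (c : ℝ) (hf : ∀ n : ℕ, |f n - n * c| ≤ 1) :
    Tendsto (fun n : ℕ => f n / (n : ℝ)) atTop (𝓝 c) := by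
  have h1 : Tendsto (fun n : ℕ => 1 / (n : ℝ)) atTop (𝓝 0) := tendsto_one_div_atTop_nhds_zero_nat
  rw [tendsto_iff_norm_sub_tendsto_zero]
  refine squeeze_zero' (Filter.Eventually.of_forall fun n => norm_nonneg _) ?_ h1
  filter_upwards [eventually_gt_atTop 0] with n hn
  have hn' : (0:ℝ) < n := by exact_mod_cast hn
  rw [Real.norm_eq_abs]
  have : f n / n - c = (f n - n * c) / n := by field_simp
  rw [this, abs_div, abs_of_pos hn']
  gcongr
  exact hf n

lemma hasCircle : HasAnalyticCircle V 1 rho := by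
  refine ⟨R, isCircle, ?_⟩
  intro p h0 hp
  have horb := orbit p h0 hp
  have key : ∀ n : ℤ, |(p n).1 - (p 0).1 - n * rho| ≤ 1 := by
    intro n
    rw [(horb n).2]
    have h1 := abs_h_sub (kap (p 0).1 + n * rho)
    have h2 := abs_h_sub (kap (p 0).1)
    rw [h_kap] at h2
    rw [abs_le] at h1 h2 ⊢
    constructor <;> linarith [h1.1, h1.2, h2.1, h2.2]
  constructor
  · apply rot_tendsto
    intro n
    have := key n
    push_cast at this
    exact this
  · have h1 := rot_tendsto (fun n => -((p (-(n:ℤ))).1 - (p 0).1)) rho (by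
      intro n
      have := key (-(n:ℤ))
      push_cast at this
      rw [← abs_neg]
      have e : -(-((p (-(n:ℤ))).1 - (p 0).1) - (n:ℝ) * rho) =
          (p (-(n:ℤ))).1 - (p 0).1 - -(n:ℝ) * rho := by ring
      rw [e]
      exact this)
    refine h1.congr fun n => ?_
    rw [neg_div, div_neg]

/-- **Main theorem.** There are a real-analytic mean-zero `V` on the circle and a Diophantine
`rho` such that `F_{V,1}` has an analytic invariant circle of rotation number `rho` while
`F_{V,3/4}` has no analytic invariant circle at all; in particular no threshold `L` exists for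
`(V, rho)`, even if one only looks at positive parameters. -/
theorem result : ∃ (V : ℝ → ℝ) (rho : ℝ), Admissible V ∧ Diophantine rho ∧
    HasAnalyticCircle V 1 rho ∧ (∀ R : ℝ → ℝ, ¬ IsAnalyticCircle V (3 / 4) R) ∧
    ∀ L : ℝ, 0 ≤ L →
      ((∃ lam : ℝ, L < |lam| ∧ 0 < lam ∧ HasAnalyticCircle V lam rho) ∨
        ∃ lam : ℝ, |lam| < L ∧ 0 < lam ∧ ¬ HasAnalyticCircle V lam rho) := by
  refine ⟨V, rho, admissible_V, diophantine_rho, hasCircle, no_circle_V, ?_⟩
  intro L _
  rcases lt_or_ge L 1 with hL | hL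
  · left
    exact ⟨1, by rw [abs_one]; exact hL, one_pos, hasCircle⟩
  · right
    refine ⟨3 / 4, ?_, by norm_num, ?_⟩
    · rw [abs_of_pos (by norm_num)]
      linarith
    · rintro ⟨R, hR, _⟩
      exact no_circle_V R hR

end Pool.Agent.Results.MP_d23f22_an.ThresholdFails
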